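import Pool.Agent.NH47.FC.Low
import Pool.Agent.NH47.FC.Mono

/-!
# The factorial conjecture for polynomials with a dominated leading form

For a polynomial whose leading form is a monomial, or a form in which the term `U_i ^ D` dominates each
other term, `𝓛 (f ^ m) ≠ 0` for all large `m`; the terms of lower degree are arbitrary.
-/

set_option autoImplicit false

namespace Pool.Agent.Results.MP_04a253_al.LeadingForm

open Finset Filter Topology Pool.Agent.NH47.FC

/-- eventually nonzero from a nonzero limit of a quotient -/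
lemma ev_ne {F : ℕ → ℂ} {G : ℕ → ℂ} {Λ : ℂ} (hΛ : Λ ≠ 0)
    (h : Tendsto (fun m => F m / G m) atTop (𝓝 Λ)) : ∃ m₀, ∀ m, m₀ ≤ m → F m ≠ 0 := by
  have h1 := h.eventually_ne hΛ
  obtain ⟨m₀, h2⟩ := eventually_atTop.1 h1
  exact ⟨m₀, fun m hm h3 => h2 m hm (by rw [h3, zero_div])⟩

/-- splitting a polynomial into the term of exponent `K` and the other terms -/
lemma split_eq {n : ℕ} (f : MvPolynomial (Fin n) ℂ) (K : Fin n →₀ ℕ) (hK : K ∈ f.support)
    (hmax : ∀ a ∈ f.support, dg a ≤ dg K) :
    f = MvPolynomial.C (f.coeff K) * ((MvPolynomial.monomial K 1 +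
      ∑ a ∈ f.support.filter (fun a => dg a = dg K ∧ a ≠ K),
        MvPolynomial.monomial a (f.coeff a / f.coeff K)) +
      ∑ b ∈ f.support.filter (fun b => dg b < dg K),
        MvPolynomial.monomial b (f.coeff b / f.coeff K)) := by
  have hc : f.coeff K ≠ 0 := MvPolynomial.mem_support_iff.1 hK
  have h1 : f = ∑ a ∈ f.support, MvPolynomial.monomial a (f.coeff a) :=
    (MvPolynomial.support_sum_monomial_coeff f).symm
  have h2 : f.support = insert K (f.support.filter (fun a => dg a = dg K ∧ a ≠ K) ∪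
      f.support.filter (fun b => dg b < dg K)) := by
    ext a
    simp only [mem_insert, mem_union, mem_filter]
    constructor
    · intro ha
      rcases eq_or_ne a K with rfl | hne
      · exact Or.inl rfl
      · rcases lt_or_eq_of_le (hmax a ha) with h | h
        · exact Or.inr (Or.inr ⟨ha, h⟩)
        · exact Or.inr (Or.inl ⟨ha, h, hne⟩)
    · rintro (rfl | ⟨ha, -⟩ | ⟨ha, -⟩)
      · exact hK
      · exact ha
      · exact ha
  have h3 : K ∉ f.support.filter (fun a => dg a = dg K ∧ a ≠ K) ∪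
      f.support.filter (fun b => dg b < dg K) := by
    simp
  have h4 : Disjoint (f.support.filter (fun a => dg a = dg K ∧ a ≠ K))
      (f.support.filter (fun b => dg b < dg K)) := by
    rw [disjoint_left]
    intro a ha hb
    have := (mem_filter.1 ha).2.1
    have := (mem_filter.1 hb).2
    omega
  have h5 : ∀ a, MvPolynomial.C (f.coeff K) * MvPolynomial.monomial a (f.coeff a / f.coeff K) =
      (MvPolynomial.monomial a (f.coeff a) : MvPolynomial (Fin n) ℂ) := by
    intro a
    rw [MvPolynomial.C_mul_monomial, mul_div_cancel₀ _ hc]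
  have h6 : MvPolynomial.C (f.coeff K) * MvPolynomial.monomial K 1 =
      (MvPolynomial.monomial K (f.coeff K) : MvPolynomial (Fin n) ℂ) := by
    rw [MvPolynomial.C_mul_monomial, mul_one]
  conv_lhs => rw [h1, h2, sum_insert h3, sum_union h4]
  rw [mul_add, mul_add, mul_sum, mul_sum, h6, sum_congr rfl fun a _ => h5 a,
    sum_congr rfl fun a _ => h5 a, add_assoc]

lemma L_C_mul {n : ℕ} (c : ℂ) (p : MvPolynomial (Fin n) ℂ) :
    L (MvPolynomial.C c * p) = c * L p := by
  rw [← MvPolynomial.smul_eq_C_mul, map_smul, smul_eq_mul]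

/-- **The factorial conjecture for polynomials with a dominated leading form.** -/
theorem result (n : ℕ) (f : MvPolynomial (Fin n) ℂ) (K : Fin n →₀ ℕ) (hK : K ∈ f.support)
    (hmax : ∀ a ∈ f.support, ∑ i, a i ≤ ∑ i, K i)
    (h : (∀ a ∈ f.support, ∑ i, a i = ∑ i, K i → a = K) ∨
      (∃ i, K = Finsupp.single i (K i)) ∧ ∀ a ∈ f.support, a ≠ K → ∑ i, a i = ∑ i, K i →
        ‖f.coeff a‖ * ∏ i, ((a i).factorial : ℝ) < ‖f.coeff K‖ * ∏ i, ((K i).factorial : ℝ)) :
    ∃ m₀ : ℕ, ∀ m, m₀ ≤ m →
      ∑ s ∈ (f ^ m).support, (f ^ m).coeff s * ∏ i, ((s i).factorial : ℂ) ≠ 0 := by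
  have hc : f.coeff K ≠ 0 := MvPolynomial.mem_support_iff.1 hK
  have hmax' : ∀ a ∈ f.support, dg a ≤ dg K := hmax
  have hsplit := split_eq f K hK hmax'
  set A := f.support.filter (fun a => dg a = dg K ∧ a ≠ K) with hA
  set B := f.support.filter (fun b => dg b < dg K) with hB
  set g : (Fin n →₀ ℕ) → ℂ := fun a => f.coeff a / f.coeff K with hg
  have hBd : ∀ b ∈ B, dg b < dg K := fun b hb => (mem_filter.1 hb).2
  suffices hs : ∃ m₀ : ℕ, ∀ m, m₀ ≤ m → L (((MvPolynomial.monomial K 1 +
      ∑ a ∈ A, MvPolynomial.monomial a (g a)) + ∑ b ∈ B, MvPolynomial.monomial b (g b)) ^ m) ≠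
        0 by
    obtain ⟨m₀, hm₀⟩ := hs
    refine ⟨m₀, fun m hm => ?_⟩
    have e := L_eq (f ^ m)
    rw [← e]
    conv_lhs => rw [hsplit]
    rw [mul_pow, ← map_pow, L_C_mul]
    exact mul_ne_zero (pow_ne_zero _ hc) (hm₀ m hm)
  rcases Nat.eq_zero_or_pos (dg K) with hD | hD
  · -- a constant polynomial
    have hA0 : A = ∅ := by
      rw [eq_empty_iff_forall_notMem]
      intro a ha
      obtain ⟨-, h1, h2⟩ := mem_filter.1 ha
      apply h2
      have h3 : ∀ s : Fin n →₀ ℕ, dg s = 0 → s = 0 := fun s hs => by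
        ext i
        exact (sum_eq_zero_iff.1 hs) i (mem_univ i)
      rw [h3 a (by rw [h1, hD]), h3 K hD]
    have hB0 : B = ∅ := by
      rw [eq_empty_iff_forall_notMem]
      intro b hb
      have := hBd b hb
      omega
    refine ⟨0, fun m _ => ?_⟩
    rw [hA0, hB0, sum_empty, add_zero, add_zero, MvPolynomial.monomial_pow, one_pow,
      L_monomial, one_mul]
    exact_mod_cast (fac_pos _).ne'
  rcases h with h | ⟨⟨i, hi⟩, h⟩
  · have hA0 : A = ∅ := by
      rw [eq_empty_iff_forall_notMem]
      intro a ha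
      obtain ⟨h0, h1, h2⟩ := mem_filter.1 ha
      exact h2 (h a h0 h1)
    obtain ⟨Λ, hΛ, hlim⟩ := mono K rfl hD B g hBd
    rw [hA0, sum_empty, add_zero]
    exact ev_ne hΛ hlim
  · have hdi : dg K = K i := by
      rw [hi]
      simp [dg, Finsupp.single_apply]
    have hfK : (fac K : ℝ) = ∏ i, ((K i).factorial : ℝ) := by
      unfold fac
      push_cast
      rfl
    have hfKd : fac K = (dg K).factorial := by
      rw [hdi]
      unfold fac
      rw [prod_eq_single i]
      · intro j _ hj
        have : K j = 0 := by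
          rw [hi, Finsupp.single_apply, if_neg (Ne.symm hj)]
        rw [this, Nat.factorial_zero]
      · intro h0
        exact absurd (mem_univ i) h0
    have hT : Top i (dg K) A g := by
      refine ⟨hD, fun a ha => (mem_filter.1 ha).2.1, fun a ha => ?_, fun a ha => ?_⟩
      · rw [hdi, ← hi]
        exact (mem_filter.1 ha).2.2
      · obtain ⟨h0, h1, h2⟩ := mem_filter.1 ha
        have h3 := h a h0 h2 h1
        have hcn : 0 < ‖f.coeff K‖ := norm_pos_iff.2 hc
        have hfa : (fac a : ℝ) = ∏ i, ((a i).factorial : ℝ) := by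
          unfold fac
          push_cast
          rfl
        rw [← hfa, ← hfK, hfKd] at h3
        simp only [hg]
        rw [norm_div, div_mul_eq_mul_div, div_lt_iff₀ hcn, mul_comm (((dg K).factorial : ℕ) : ℝ)]
        exact h3
    obtain ⟨Λ, hΛ, hlim⟩ := vert hT B g hBd
    have hF : FF i (dg K) A g = MvPolynomial.monomial K 1 +
        ∑ a ∈ A, MvPolynomial.monomial a (g a) := by
      unfold FF
      rw [hdi, ← hi]
    rw [hF] at hlim
    exact ev_ne hΛ hlim

end Pool.Agent.Results.MP_04a253_al.LeadingForm
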